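import Pool.Agent.W714.Mink.Final

set_option autoImplicit false

/-!
# MP_d2f538_an: totally integrable Minkowski billiards are elliptic

The table, the phase cylinder, the generating function, the Minkowski billiard map, rotational
invariant curves, total integrability and ellipses are defined in `Pool/Agent/W714/Mink/Defs.lean`.
-/

namespace Pool.Agent.Results.MP_d2f538_an.OnlyEllipses

open Pool.Agent.W714.Mink

/-- **Total integrability of Minkowski billiards without symmetry.**  Let `K` be the open domain
bounded by a `C²`-smooth strictly convex closed curve, with the origin in `K` (no symmetry is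
assumed), and let `γ` parametrise the curve by `g_K`-arc length.  There is exactly one Minkowski
billiard map `T` of `K` on the phase cylinder, and if `T` is totally integrable in the whole phase
cylinder, then the curve is a Euclidean ellipse. -/
theorem result (K : Set ℂ) (γ : ℝ → ℂ) (ℓ : ℝ) (h : Table K γ ℓ) :
    (∃! T : PhaseCyl ℓ → PhaseCyl ℓ, IsMinkowskiBilliard K γ ℓ T) ∧
      ∀ T : PhaseCyl ℓ → PhaseCyl ℓ, IsMinkowskiBilliard K γ ℓ T → IsTotallyIntegrable T →
        IsEllipse (Set.range γ) :=
  ⟨existsUnique_billiard h, fun _ hT hI => isEllipse_of_integrable h hT hI⟩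

end Pool.Agent.Results.MP_d2f538_an.OnlyEllipses
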